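import Mathlib
import Pool.Agent.Q283.TQ.Mat

/-!
# The linear system of `D q ^ e`, `q` a prime `2` modulo `3`

`D` is cube-free with all prime factors `1` modulo `3`, `q` is a prime `2` modulo `3`, `e = 1, 2`. The
system of `D q ^ e` is the one of `D` with the vector `e * lam p q` added to the diagonal, and `lam p q`
depends only on `q` modulo `p`.
-/

set_option autoImplicit false

open scoped Classical

namespace Pool.Agent.U33.B3

open Finset Pool.Agent.Y703.CX
open Pool.Agent.Y703.CT (Cls NoSplit Base)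
open Q283.TQ (Bs mu Ker nosplit_iff)

/-- cube-free, all prime factors `1` modulo `3` -/
def Split3 (D : ℕ) : Prop :=
  D ≠ 0 ∧ (∀ p : ℕ, p.Prime → ¬ p ^ 3 ∣ D) ∧ ∀ p ∈ D.primeFactors, p % 3 = 1

/-- the system of `D`, perturbed by `a` on the diagonal, has only the zero solution -/
def NS (D : ℕ) (a : ℕ → ZMod 3) : Prop :=
  ∀ g : ℕ → ZMod 3,
    (∀ p ∈ D.primeFactors, ∑ r ∈ D.primeFactors, mu D r * lam p r * (g r - g p) = a p * g p) →
    ∀ p ∈ D.primeFactors, g p = 0

theorem NS.congr {D : ℕ} {a b : ℕ → ZMod 3} (h : ∀ p ∈ D.primeFactors, a p = b p) :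
    NS D a ↔ NS D b := by
  unfold NS
  refine forall_congr' fun g => ?_
  have e : (∀ p ∈ D.primeFactors, ∑ r ∈ D.primeFactors, mu D r * lam p r * (g r - g p) = a p * g p) ↔
      (∀ p ∈ D.primeFactors, ∑ r ∈ D.primeFactors, mu D r * lam p r * (g r - g p) = b p * g p) :=
    forall₂_congr fun p hp => by rw [h p hp]
  rw [e]

section
variable {D q e : ℕ}

theorem q_not_dvd (hD : Split3 D) (hq : q.Prime) (hq2 : q % 3 = 2) : ¬ q ∣ D := by
  intro h
  have := hD.2.2 q (Nat.mem_primeFactors.2 ⟨hq, h, hD.1⟩)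
  omega

theorem pf_pow (hD : D ≠ 0) (hq : q.Prime) (he : e ≠ 0) :
    (D * q ^ e).primeFactors = insert q D.primeFactors := by
  rw [Nat.primeFactors_mul hD (pow_ne_zero _ hq.ne_zero), Nat.primeFactors_prime_pow he hq,
    Finset.union_comm]
  rfl

theorem mu_pow (hD : D ≠ 0) (hq : q.Prime) {r : ℕ} (hr : r ≠ q) : mu (D * q ^ e) r = mu D r := by
  unfold mu
  rw [Nat.factorization_mul hD (pow_ne_zero _ hq.ne_zero), Finsupp.add_apply, hq.factorization_pow,
    Finsupp.single_eq_of_ne hr, add_zero]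

theorem mu_pow_self (hD : D ≠ 0) (hq : q.Prime) (hqD : ¬ q ∣ D) :
    mu (D * q ^ e) q = (e : ZMod 3) := by
  unfold mu
  rw [Nat.factorization_mul hD (pow_ne_zero _ hq.ne_zero), Finsupp.add_apply, hq.factorization_pow,
    Finsupp.single_eq_same, Nat.factorization_eq_zero_of_not_dvd hqD, zero_add]

/-- **the system of `D q ^ e`** -/
theorem ker_pow (hD : Split3 D) (hq : q.Prime) (hq2 : q % 3 = 2) (he : e ≠ 0) :
    Ker (D * q ^ e) ↔ NS D (fun p => (e : ZMod 3) * lam p q) := by
  have hD0 := hD.1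
  have hqD := q_not_dvd hD hq hq2
  have hnm : q ∉ D.primeFactors := fun h => hqD (Nat.dvd_of_mem_primeFactors h)
  have key : ∀ (c : ℕ → ZMod 3), ∀ p ∈ D.primeFactors,
      ∑ r ∈ (D * q ^ e).primeFactors, mu (D * q ^ e) r * lam p r * (c r - c p) =
        (e : ZMod 3) * lam p q * (c q - c p) +
          ∑ r ∈ D.primeFactors, mu D r * lam p r * (c r - c p) := by
    intro c p hp
    rw [pf_pow hD0 hq he, Finset.sum_insert hnm, mu_pow_self hD0 hq hqD]
    congr 1
    refine Finset.sum_congr rfl fun r hr => ?_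
    rw [mu_pow hD0 hq (fun h => hnm (h ▸ hr))]
  constructor
  · intro hK g hg p hp
    set c : ℕ → ZMod 3 := fun r => if r = q then 0 else g r with hc
    have hcq : c q = 0 := by simp [hc]
    have hcr : ∀ r ∈ D.primeFactors, c r = g r := by
      intro r hr
      have : r ≠ q := fun h => hnm (h ▸ hr)
      simp [hc, this]
    have h3 := hK c (by
      intro p' hp' hp1
      rw [pf_pow hD0 hq he, Finset.mem_insert] at hp'
      rcases hp' with rfl | hp'
      · omega
      · rw [key c p' hp', hcq, hcr p' hp']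
        have e1 : ∑ r ∈ D.primeFactors, mu D r * lam p' r * (c r - g p') =
            ∑ r ∈ D.primeFactors, mu D r * lam p' r * (g r - g p') :=
          Finset.sum_congr rfl fun r hr => by rw [hcr r hr]
        rw [e1, hg p' hp']
        ring)
    have h4 := h3 p (by rw [pf_pow hD0 hq he]; exact Finset.mem_insert_of_mem hp) q
      (by rw [pf_pow hD0 hq he]; exact Finset.mem_insert_self _ _)
    rw [hcq, hcr p hp] at h4
    exact h4
  · intro hN c hc
    have h1 : ∀ p ∈ D.primeFactors, c p - c q = 0 := by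
      refine hN (fun r => c r - c q) fun p hp => ?_
      have h2 := hc p (by rw [pf_pow hD0 hq he]; exact Finset.mem_insert_of_mem hp) (hD.2.2 p hp)
      rw [key c p hp] at h2
      have e1 : ∑ r ∈ D.primeFactors, mu D r * lam p r * (c r - c q - (c p - c q)) =
          ∑ r ∈ D.primeFactors, mu D r * lam p r * (c r - c p) :=
        Finset.sum_congr rfl fun r _ => by ring
      show ∑ r ∈ D.primeFactors, mu D r * lam p r * (c r - c q - (c p - c q)) =
        (e : ZMod 3) * lam p q * (c p - c q)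
      rw [e1]
      linear_combination h2
    have h2 : ∀ p ∈ (D * q ^ e).primeFactors, c p = c q := by
      intro p hp
      rw [pf_pow hD0 hq he, Finset.mem_insert] at hp
      rcases hp with rfl | hp
      · rfl
      · exact sub_eq_zero.1 (h1 p hp)
    intro p hp p' hp'
    rw [h2 p hp, h2 p' hp']

end

/-! ## `lam p q` depends only on `q` modulo `p` -/

theorem lam_congr (h : LamP) {p m n : ℕ} (hp : p.Prime) (hp1 : p % 3 = 1) (hm : ¬ p ∣ m)
    (hmn : m ≡ n [MOD p]) : lam p m = lam p n := by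
  have hn : ¬ p ∣ n := fun h => hm ((Nat.ModEq.dvd_iff hmn (dvd_refl p)).2 h)
  have hn2 : ¬ p ∣ n * n := fun h => (hp.dvd_mul.1 h).elim hn hn
  have hm2 : ¬ p ∣ m * (n * n) := fun h => (hp.dvd_mul.1 h).elim hm hn2
  have h1 : lam p (m * (n * n)) = 0 := by
    rw [h.cube p _ hp hp1 hm2]
    refine ⟨n, ?_⟩
    have h2 : (m : ℤ) ≡ n [ZMOD p] := (Int.natCast_modEq_iff).2 hmn
    have h3 := Int.modEq_iff_dvd.1 h2.symm
    have e1 : (((m * (n * n) : ℕ)) : ℤ) - (n : ℤ) ^ 3 = ((m : ℤ) - n) * (n * n) := by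
      push_cast; ring
    rw [e1]
    exact Dvd.dvd.mul_right h3 _
  rw [h.mul p _ _ hp hp1 hm hn2, h.mul p _ _ hp hp1 hn hn] at h1
  have h4 : ∀ x y : ZMod 3, x + (y + y) = 0 → x = y := by decide
  exact h4 _ _ h1

/-- all values of `lam p` -/
theorem lam_surj (h : LamP) {p : ℕ} (hp : p.Prime) (hp1 : p % 3 = 1) (x : ZMod 3) :
    ∃ n : ℕ, ¬ p ∣ n ∧ lam p n = x := by
  have : Fact p.Prime := ⟨hp⟩
  -- a non-cube
  have hnc : ∃ n : ℕ, ¬ p ∣ n ∧ lam p n ≠ 0 := by
    by_contra hcon
    push Not at hcon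
    -- all units are cubes
    have hall : ∀ u : (ZMod p)ˣ, ∃ v : (ZMod p)ˣ, v ^ 3 = u := by
      intro u
      have hu : ¬ p ∣ (u : ZMod p).val := by
        intro hd
        have h1 : ((u : ZMod p).val : ZMod p) = 0 := (ZMod.natCast_eq_zero_iff _ _).2 hd
        rw [ZMod.natCast_zmod_val] at h1
        exact u.ne_zero h1
      obtain ⟨x, hx⟩ := (h.cube p _ hp hp1 hu).1 (hcon _ hu)
      have hx2 : ((x : ℤ) : ZMod p) ^ 3 = (u : ZMod p) := by
        have h2 : (((((u : ZMod p).val : ℕ) : ℤ) - x ^ 3 : ℤ) : ZMod p) = 0 :=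
          (ZMod.intCast_zmod_eq_zero_iff_dvd _ _).2 hx
        push_cast at h2
        rw [ZMod.natCast_zmod_val] at h2
        exact (sub_eq_zero.1 h2).symm
      have hx0 : ((x : ℤ) : ZMod p) ≠ 0 := by
        intro h0
        rw [h0] at hx2
        exact u.ne_zero (by rw [← hx2]; simp)
      refine ⟨Units.mk0 _ hx0, Units.ext ?_⟩
      rw [Units.val_pow_eq_pow_val, Units.val_mk0, hx2]
    have hsurj : Function.Surjective (fun v : (ZMod p)ˣ => v ^ 3) := hall
    have hinj : Function.Injective (fun v : (ZMod p)ˣ => v ^ 3) :=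
      Finite.injective_iff_surjective.2 hsurj
    -- an element of order three
    have hcard : 3 ∣ Fintype.card (ZMod p)ˣ := by
      rw [ZMod.card_units_eq_totient, Nat.totient_prime hp]
      omega
    obtain ⟨g, hg⟩ := exists_prime_orderOf_dvd_card 3 hcard
    have h3 : g ^ 3 = 1 := by rw [← hg]; exact pow_orderOf_eq_one g
    have h4 : g = 1 := hinj (by simp only [h3, one_pow])
    rw [h4, orderOf_one] at hg
    norm_num at hg
  obtain ⟨n, hn, hn0⟩ := hnc
  have hn2 : ¬ p ∣ n * n := fun h => (hp.dvd_mul.1 h).elim hn hn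
  have h1 : lam p 1 = 0 := by
    have := h.mul p 1 1 hp hp1 hp.not_dvd_one hp.not_dvd_one
    simpa using this
  have h5 : ∀ x y : ZMod 3, y ≠ 0 → x = 0 ∨ x = y ∨ x = y + y := by decide
  rcases h5 x (lam p n) hn0 with h6 | h6 | h6
  · exact ⟨1, hp.not_dvd_one, by rw [h1, h6]⟩
  · exact ⟨n, hn, h6.symm⟩
  · exact ⟨n * n, hn2, by rw [h.mul p _ _ hp hp1 hn hn, h6]⟩

end Pool.Agent.U33.B3
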