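import Mathlib
import Pool.Agent.H730R2.AA.WdLim
import Pool.Agent.U33.B3.Ker
import Pool.Agent.W401.Cheb.Grp

/-!
# The density of the primes `q = j` modulo `9`, `j = 2, 5, 8`, with given symbols `lam r q`, `r ∈ R`
-/

set_option autoImplicit false

open scoped Classical

namespace Pool.Agent.U33.B3

open Finset Filter Topology Pool.Agent.Y703.CX
open Pool.Agent.H730R2.AA (clsP)

/-- the modulus -/
def md (R : Finset ℕ) : ℕ := 9 * ∏ r ∈ R, r

section
variable {R : Finset ℕ} (hR : ∀ r ∈ R, r.Prime ∧ r % 3 = 1) (hL : LamP)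

theorem dvd_md {r : ℕ} (hr : r ∈ R) : r ∣ md R := (Finset.dvd_prod_of_mem (fun r => r) hr).mul_left 9

theorem nine_dvd_md : 9 ∣ md R := Dvd.intro _ rfl

include hR in
theorem md_pos : 0 < md R := by
  have : 0 < ∏ r ∈ R, r := Finset.prod_pos fun r hr => (hR r hr).1.pos
  unfold md
  omega

/-- a number which is prime to `3` and to the elements of `R` is prime to the modulus -/
theorem coprime_md {k : ℕ} (h3 : ¬ 3 ∣ k) (hk : ∀ r ∈ R, ¬ r ∣ k) (hR : ∀ r ∈ R, r.Prime ∧ r % 3 = 1) :
    k.Coprime (md R) := by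
  unfold md
  refine Nat.Coprime.mul_right ?_ (Nat.Coprime.prod_right fun r hr => ?_)
  · have h : Nat.Coprime k (3 ^ 2) :=
      Nat.Coprime.pow_right 2 (((Nat.Prime.coprime_iff_not_dvd Nat.prime_three).2 h3).symm)
    simpa using h
  · exact (((hR r hr).1.coprime_iff_not_dvd).2 (hk r hr)).symm

theorem not_dvd_of_coprime {k r : ℕ} (hR : ∀ r ∈ R, r.Prime ∧ r % 3 = 1) (hk : k.Coprime (md R))
    (hr : r ∈ R) : ¬ r ∣ k := by
  intro h
  have h1 := Nat.dvd_gcd h (dvd_md hr)
  rw [hk] at h1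
  exact (hR r hr).1.one_lt.ne' (Nat.dvd_one.1 h1)

/-- CRT: all classes and symbols occur -/
theorem exists_nat (hR : ∀ r ∈ R, r.Prime ∧ r % 3 = 1) (hL : LamP) (j : ℕ) (hj : ¬ 3 ∣ j)
    (a : R → ZMod 3) :
    ∃ k : ℕ, k.Coprime (md R) ∧ k ≡ j [MOD 9] ∧ ∀ r : R, lam r k = a r := by
  have hex : ∀ r : ℕ, ∃ n : ℕ, ∀ hr : r ∈ R, ¬ r ∣ n ∧ lam r n = a ⟨r, hr⟩ := by
    intro r
    by_cases hr : r ∈ R
    · obtain ⟨n, hn1, hn2⟩ := lam_surj hL (hR r hr).1 (hR r hr).2 (a ⟨r, hr⟩)
      exact ⟨n, fun _ => ⟨hn1, hn2⟩⟩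
    · exact ⟨0, fun h => absurd h hr⟩
  choose n hn using hex
  have h9 : (9 : ℕ) ∉ R := fun h => by
    have := (hR 9 h).1
    norm_num at this
  have hcop : Set.Pairwise ((insert 9 R : Finset ℕ) : Set ℕ) (Function.onFun Nat.Coprime fun r => r) := by
    intro x hx y hy hxy
    have h3 : ∀ r ∈ R, Nat.Coprime 9 r := fun r hr => by
      have h4 : Nat.Coprime (3 ^ 2) r := Nat.Coprime.pow_left 2
        ((Nat.coprime_primes Nat.prime_three (hR r hr).1).2 (fun h => by
          have := (hR r hr).2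
          omega))
      simpa using h4
    show Nat.Coprime x y
    rw [Finset.mem_coe, Finset.mem_insert] at hx hy
    rcases hx with rfl | hx <;> rcases hy with rfl | hy
    · exact absurd rfl hxy
    · exact h3 y hy
    · exact (h3 x hx).symm
    · exact (Nat.coprime_primes (hR x hx).1 (hR y hy).1).2 hxy
  obtain ⟨k, hk⟩ := Nat.chineseRemainderOfFinset (fun r => if r = 9 then j else n r) (fun r => r)
    (insert 9 R) (fun r hr => by
      rcases Finset.mem_insert.1 hr with rfl | hr
      · norm_num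
      · exact (hR r hr).1.ne_zero) hcop
  have hk9 : k ≡ j [MOD 9] := by simpa using hk 9 (Finset.mem_insert_self _ _)
  have hkr : ∀ r ∈ R, k ≡ n r [MOD r] := by
    intro r hr
    have h1 := hk r (Finset.mem_insert_of_mem hr)
    have h2 : r ≠ 9 := fun h => h9 (h ▸ hr)
    simpa [h2] using h1
  have h3 : ¬ 3 ∣ k := by
    intro h
    apply hj
    have h4 : k ≡ j [MOD 3] := hk9.of_dvd (by norm_num)
    exact (Nat.ModEq.dvd_iff h4 (dvd_refl 3)).1 h
  have hkd : ∀ r ∈ R, ¬ r ∣ k := fun r hr h =>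
    (hn r hr).1 ((Nat.ModEq.dvd_iff (hkr r hr) (dvd_refl r)).1 h)
  refine ⟨k, coprime_md h3 hkd hR, hk9, fun r => ?_⟩
  rw [lam_congr hL (hR r r.2).1 (hR r r.2).2 (hkd r r.2) (hkr r r.2)]
  exact (hn r r.2).2

/-- the symbols of a unit -/
noncomputable def symHom (hR : ∀ r ∈ R, r.Prime ∧ r % 3 = 1) (hL : LamP) :
    (ZMod (md R))ˣ →* Multiplicative (R → ZMod 3) where
  toFun u := Multiplicative.ofAdd fun r : R => lam r (u : ZMod (md R)).val
  map_one' := by
    have : NeZero (md R) := ⟨(md_pos hR).ne'⟩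
    rw [← ofAdd_zero]
    congr 1
    funext r
    have h1 : lam r 1 = 0 := by
      have := hL.mul r 1 1 (hR r r.2).1 (hR r r.2).2 (hR r r.2).1.not_dvd_one
        (hR r r.2).1.not_dvd_one
      simpa using this
    have hone : ((1 : (ZMod (md R))ˣ) : ZMod (md R)).val = 1 := by
      rw [Units.val_one, ZMod.val_one'' (fun h => by
        have := nine_dvd_md (R := R)
        rw [h] at this
        norm_num at this)]
    rw [hone, h1]
    rfl
  map_mul' u v := by
    have : NeZero (md R) := ⟨(md_pos hR).ne'⟩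
    rw [← ofAdd_add]
    congr 1
    funext r
    have hu := not_dvd_of_coprime hR (ZMod.val_coe_unit_coprime u) r.2
    have hv := not_dvd_of_coprime hR (ZMod.val_coe_unit_coprime v) r.2
    have huv := not_dvd_of_coprime hR (ZMod.val_coe_unit_coprime (u * v)) r.2
    have hmod : ((u * v : (ZMod (md R))ˣ) : ZMod (md R)).val ≡
        (u : ZMod (md R)).val * (v : ZMod (md R)).val [MOD (r : ℕ)] := by
      rw [Units.val_mul, ZMod.val_mul]
      exact (Nat.mod_modEq _ _).of_dvd (dvd_md r.2)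
    rw [Pi.add_apply, lam_congr hL (hR r r.2).1 (hR r r.2).2 huv hmod,
      hL.mul r _ _ (hR r r.2).1 (hR r r.2).2 hu hv]

/-- the class modulo `9` and the symbols -/
noncomputable def thetaHom (hR : ∀ r ∈ R, r.Prime ∧ r % 3 = 1) (hL : LamP) :
    (ZMod (md R))ˣ →* (ZMod 9)ˣ × Multiplicative (R → ZMod 3) :=
  (ZMod.unitsMap nine_dvd_md).prod (symHom hR hL)

theorem unitsMap_nat {k : ℕ} (hk : k.Coprime (md R)) (h9 : k.Coprime 9) :
    ZMod.unitsMap (nine_dvd_md (R := R)) (ZMod.unitOfCoprime k hk) = ZMod.unitOfCoprime k h9 := by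
  apply Units.ext
  rw [ZMod.unitsMap_val, ZMod.coe_unitOfCoprime, ZMod.coe_unitOfCoprime, ZMod.cast_natCast nine_dvd_md]

theorem theta_surj (hR : ∀ r ∈ R, r.Prime ∧ r % 3 = 1) (hL : LamP) :
    Function.Surjective (thetaHom hR hL) := by
  have : NeZero (md R) := ⟨(md_pos hR).ne'⟩
  rintro ⟨c, a⟩
  have hc3 : ¬ 3 ∣ (c : ZMod 9).val := by
    intro h
    have h1 := Nat.dvd_gcd h (by norm_num : 3 ∣ 9)
    rw [ZMod.val_coe_unit_coprime c] at h1
    norm_num at h1
  obtain ⟨k, hk, hk9, hka⟩ := exists_nat hR hL (c : ZMod 9).val hc3 (Multiplicative.toAdd a)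
  have hkc : k.Coprime 9 := hk.coprime_dvd_right nine_dvd_md
  refine ⟨ZMod.unitOfCoprime k hk, Prod.ext ?_ ?_⟩
  · show ZMod.unitsMap nine_dvd_md (ZMod.unitOfCoprime k hk) = c
    rw [unitsMap_nat hk hkc]
    apply Units.ext
    rw [ZMod.coe_unitOfCoprime]
    have h1 := (ZMod.natCast_eq_natCast_iff k (c : ZMod 9).val 9).2 hk9
    rw [h1, ZMod.natCast_zmod_val]
  · show Multiplicative.ofAdd (fun r : R => lam r ((ZMod.unitOfCoprime k hk : (ZMod (md R))ˣ) :
      ZMod (md R)).val) = a
    rw [← ofAdd_toAdd a]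
    congr 1
    funext r
    rw [← hka r]
    have hkd := not_dvd_of_coprime hR hk r.2
    refine (lam_congr hL (hR r r.2).1 (hR r r.2).2 hkd ?_).symm
    rw [ZMod.coe_unitOfCoprime, ZMod.val_natCast]
    exact ((Nat.mod_modEq _ _).of_dvd (dvd_md r.2)).symm

theorem card_theta (hR : ∀ r ∈ R, r.Prime ∧ r % 3 = 1) (hL : LamP) (j : (ZMod 9)ˣ)
    (U : (R → ZMod 3) → Prop) :
    Nat.card {u : (ZMod (md R))ˣ // (thetaHom hR hL u).1 = j ∧
      U (Multiplicative.toAdd (thetaHom hR hL u).2)} =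
      Nat.card (thetaHom hR hL).ker * Nat.card {a : R → ZMod 3 // U a} := by
  rw [Pool.Agent.W401.Cheb.card_fib (thetaHom hR hL)
    (fun b => b.1 = j ∧ U (Multiplicative.toAdd b.2)) (fun b _ => theta_surj hR hL b)]
  congr 1
  exact Nat.card_congr
    { toFun := fun z => ⟨Multiplicative.toAdd z.1.2, z.2.2⟩
      invFun := fun x => ⟨(j, Multiplicative.ofAdd x.1), rfl, x.2⟩
      left_inv := fun z => Subtype.ext (Prod.ext z.2.1.symm rfl)
      right_inv := fun _ => rfl }

theorem card_fun3 (R : Finset ℕ) : Nat.card (R → ZMod 3) = 3 ^ R.card := by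
  rw [Nat.card_fun, Nat.card_eq_fintype_card, Nat.card_eq_fintype_card, ZMod.card, Fintype.card_coe]

/-- the number of the primes `q ≤ X`, `q = j` modulo `9`, with the property `P` -/
noncomputable def cnt (j : ℕ) (P : ℕ → Prop) (X : ℕ) : ℕ :=
  ((Finset.Icc 1 X).filter fun q => q.Prime ∧ q % 9 = j ∧ P q).card

theorem cnt_lim (hR : ∀ r ∈ R, r.Prime ∧ r % 3 = 1) (hL : LamP) {j : ℕ} (hj : j = 2 ∨ j = 5 ∨ j = 8)
    (U : (R → ZMod 3) → Prop) :
    Tendsto (fun X : ℕ => (cnt j (fun q => U fun r : R => lam r q) X : ℝ) / Nat.primeCounting X) atTop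
      (𝓝 ((Nat.card (thetaHom hR hL).ker * Nat.card {a : R → ZMod 3 // U a} : ℝ) *
        (((md R).totient : ℝ)⁻¹))) := by
  have : NeZero (md R) := ⟨(md_pos hR).ne'⟩
  have hj9 : Nat.Coprime j 9 := by rcases hj with rfl | rfl | rfl <;> norm_num
  set jj : (ZMod 9)ˣ := ZMod.unitOfCoprime j hj9 with hjj
  set F : Finset (ZMod (md R))ˣ := Finset.univ.filter fun u => (thetaHom hR hL u).1 = jj ∧
      U (Multiplicative.toAdd (thetaHom hR hL u).2) with hF
  have hcardF : (F.card : ℝ) = (Nat.card (thetaHom hR hL).ker * Nat.card {a : R → ZMod 3 // U a} : ℝ) := by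
    have h1 := card_theta hR hL jj U
    rw [Nat.card_eq_fintype_card (α := {u : (ZMod (md R))ˣ // _}), Fintype.card_subtype] at h1
    rw [hF, h1]
    push_cast
    rfl
  have hcnt : ∀ X : ℕ, cnt j (fun q => U fun r : R => lam r q) X =
      ∑ u ∈ F, (clsP (md R) (u : ZMod (md R)) X).card := by
    intro X
    unfold cnt
    rw [← Finset.card_biUnion]
    · congr 1
      ext q
      simp only [Finset.mem_biUnion, Finset.mem_filter, clsP, hF, Finset.mem_univ, true_and]
      constructor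
      · rintro ⟨h1, hq, hq9, hU⟩
        have h3 : ¬ 3 ∣ q := by
          intro h
          rcases hj with rfl | rfl | rfl <;> omega
        have hqR : ∀ r ∈ R, ¬ r ∣ q := by
          intro r hr h
          have h4 := (Nat.prime_dvd_prime_iff_eq (hR r hr).1 hq).1 h
          have h5 := (hR r hr).2
          rcases hj with rfl | rfl | rfl <;> omega
        have hcop := coprime_md h3 hqR hR
        have hc9 : q.Coprime 9 := hcop.coprime_dvd_right nine_dvd_md
        refine ⟨ZMod.unitOfCoprime q hcop, ⟨?_, ?_⟩, h1, hq, ?_⟩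
        · show ZMod.unitsMap nine_dvd_md (ZMod.unitOfCoprime q hcop) = jj
          rw [unitsMap_nat hcop hc9, hjj]
          apply Units.ext
          rw [ZMod.coe_unitOfCoprime, ZMod.coe_unitOfCoprime]
          rw [ZMod.natCast_eq_natCast_iff]
          show q % 9 = j % 9
          rcases hj with rfl | rfl | rfl <;> omega
        · have e1 : (fun r : R => lam r q) = Multiplicative.toAdd
              (thetaHom hR hL (ZMod.unitOfCoprime q hcop)).2 := by
            funext r
            show lam r q = lam r ((ZMod.unitOfCoprime q hcop : (ZMod (md R))ˣ) : ZMod (md R)).val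
            refine lam_congr hL (hR r r.2).1 (hR r r.2).2 (hqR r r.2) ?_
            rw [ZMod.coe_unitOfCoprime, ZMod.val_natCast]
            exact ((Nat.mod_modEq _ _).of_dvd (dvd_md r.2)).symm
          rw [← e1]
          exact hU
        · rw [ZMod.coe_unitOfCoprime]
      · rintro ⟨u, ⟨hu1, hu2⟩, h1, hq, hqu⟩
        have hval : (u : ZMod (md R)).val ≡ q [MOD md R] := by
          rw [← hqu, ZMod.val_natCast]
          exact Nat.mod_modEq _ _
        have h9 : q ≡ j [MOD 9] := by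
          have h2 : ((ZMod.unitsMap (nine_dvd_md (R := R)) u : (ZMod 9)ˣ) : ZMod 9) = (j : ZMod 9) := by
            have h3 : ZMod.unitsMap (nine_dvd_md (R := R)) u = jj := hu1
            rw [h3, hjj, ZMod.coe_unitOfCoprime]
          rw [ZMod.unitsMap_val, ← hqu, ZMod.cast_natCast nine_dvd_md] at h2
          exact (ZMod.natCast_eq_natCast_iff _ _ _).1 h2
        have hq9 : q % 9 = j := by
          have h2 : q % 9 = j % 9 := h9
          rcases hj with rfl | rfl | rfl <;> omega
        refine ⟨h1, hq, hq9, ?_⟩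
        have e1 : (fun r : R => lam r q) = Multiplicative.toAdd (thetaHom hR hL u).2 := by
          funext r
          show lam r q = lam r (u : ZMod (md R)).val
          have hud := not_dvd_of_coprime hR (ZMod.val_coe_unit_coprime u) r.2
          exact (lam_congr hL (hR r r.2).1 (hR r r.2).2 hud (hval.of_dvd (dvd_md r.2))).symm
        rw [e1]
        exact hu2
    · intro u _ v _ huv
      show Disjoint (clsP (md R) (u : ZMod (md R)) X) (clsP (md R) (v : ZMod (md R)) X)
      rw [Finset.disjoint_left]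
      intro q hq hq'
      unfold clsP at hq hq'
      simp only [Finset.mem_filter] at hq hq'
      exact huv (Units.ext (hq.2.2.symm.trans hq'.2.2))
  have hlim : Tendsto (fun X : ℕ => ∑ u ∈ F, ((clsP (md R) (u : ZMod (md R)) X).card : ℝ) /
      Nat.primeCounting X) atTop (𝓝 (∑ _u ∈ F, ((md R).totient : ℝ)⁻¹)) :=
    tendsto_finsetSum _ fun u _ => Pool.Agent.H730R2.AA.cls_tendsto (md R) u
  rw [Finset.sum_const, nsmul_eq_mul, hcardF] at hlim
  refine hlim.congr fun X => ?_
  rw [hcnt X, Nat.cast_sum, Finset.sum_div]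

/-- **the density of the primes `q = j` modulo `9` with given symbols** -/
theorem dens_class (hR : ∀ r ∈ R, r.Prime ∧ r % 3 = 1) (hL : LamP) {j : ℕ}
    (hj : j = 2 ∨ j = 5 ∨ j = 8) (U : (R → ZMod 3) → Prop) :
    Tendsto (fun X : ℕ => (cnt j (fun q => U fun r : R => lam r q) X : ℝ) / cnt j (fun _ => True) X)
      atTop (𝓝 ((Nat.card {a : R → ZMod 3 // U a} : ℝ) / 3 ^ R.card)) := by
  have h1 := cnt_lim hR hL hj U
  have h2 := cnt_lim hR hL hj (fun _ => True)
  have hker : (0 : ℝ) < Nat.card (thetaHom hR hL).ker := by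
    have : NeZero (md R) := ⟨(md_pos hR).ne'⟩
    exact_mod_cast Nat.card_pos
  have htot : (0 : ℝ) < ((md R).totient : ℝ) := by
    exact_mod_cast Nat.totient_pos.2 (md_pos hR)
  have hall : Nat.card {a : R → ZMod 3 // True} = 3 ^ R.card := by
    rw [← card_fun3]
    exact Nat.card_congr (Equiv.subtypeUnivEquiv fun _ => trivial)
  rw [hall] at h2
  have h3 := h1.div h2 (by
    push_cast
    positivity)
  have e : (Nat.card (thetaHom hR hL).ker * Nat.card {a : R → ZMod 3 // U a} : ℝ) *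
        (((md R).totient : ℝ)⁻¹) / ((Nat.card (thetaHom hR hL).ker * (3 ^ R.card : ℕ) : ℝ) *
        (((md R).totient : ℝ)⁻¹)) = (Nat.card {a : R → ZMod 3 // U a} : ℝ) / 3 ^ R.card := by
    push_cast
    field_simp
  rw [e] at h3
  refine h3.congr' ?_
  filter_upwards [eventually_ge_atTop 2] with X hX
  have hpc : (Nat.primeCounting X : ℝ) ≠ 0 := by
    have h := Nat.monotone_primeCounting hX
    have h2 : Nat.primeCounting 2 = 1 := by decide
    have : 0 < Nat.primeCounting X := by omega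
    exact_mod_cast this.ne'
  simp only [Pi.div_apply]
  rw [div_div_div_cancel_right₀ hpc]

end

end Pool.Agent.U33.B3
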