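import Mathlib
import Pool.Agent.U33.B3.Dens
import Pool.Agent.U687.PT.Diag

/-!
# Counting the nonsingular perturbations
-/

set_option autoImplicit false
set_option linter.style.haveILetI false

open scoped Classical

namespace Pool.Agent.U33.B3

open Finset Matrix Pool.Agent.Y703.CX
open Q283.TQ (mu)

/-- extension by zero -/
noncomputable def ext3 {R : Finset ℕ} (u : R → ZMod 3) (r : ℕ) : ZMod 3 :=
  if h : r ∈ R then u ⟨r, h⟩ else 0

theorem ext3_of {R : Finset ℕ} (u : R → ZMod 3) {r : ℕ} (h : r ∈ R) : ext3 u r = u ⟨r, h⟩ := by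
  unfold ext3
  rw [dif_pos h]

theorem ext3_add {R : Finset ℕ} (u v : R → ZMod 3) (r : ℕ) :
    ext3 (u + v) r = ext3 u r + ext3 v r := by
  unfold ext3
  by_cases h : r ∈ R
  · rw [dif_pos h, dif_pos h, dif_pos h]; rfl
  · rw [dif_neg h, dif_neg h, dif_neg h, add_zero]

/-- the proportion of the nonsingular perturbations -/
noncomputable def c2 (D : ℕ) : ℝ :=
  (Nat.card {u : D.primeFactors → ZMod 3 // NS D (ext3 u)} : ℝ) / 3 ^ D.primeFactors.card

/-- the matrix -/
noncomputable def AA (D : ℕ) : Matrix D.primeFactors D.primeFactors (ZMod 3) :=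
  Matrix.of fun p r => mu D r * lam p r - if p = r then ∑ s : D.primeFactors, mu D s * lam p s else 0

theorem ns_iff (D : ℕ) (u : D.primeFactors → ZMod 3) :
    NS D (ext3 u) ↔ (AA D + diagonal fun p => - u p).det ≠ 0 := by
  have hmul : ∀ (g : ℕ → ZMod 3) (p : D.primeFactors),
      ((AA D + diagonal fun p => - u p) *ᵥ fun r : D.primeFactors => g r) p =
        ∑ r ∈ D.primeFactors, mu D r * lam p r * (g r - g p) - u p * g p := by
    intro g p
    have e0 : ∑ r ∈ D.primeFactors, mu D r * lam p r * (g r - g p) =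
        ∑ r : D.primeFactors, mu D r * lam p r * (g r - g p) :=
      (Finset.sum_coe_sort D.primeFactors fun r => mu D r * lam p r * (g r - g p)).symm
    rw [e0, Matrix.add_mulVec, Pi.add_apply, Matrix.mulVec_diagonal]
    have e1 : (AA D *ᵥ fun r : D.primeFactors => g r) p =
        ∑ r : D.primeFactors, mu D r * lam p r * (g r - g p) := by
      unfold AA Matrix.mulVec dotProduct
      simp only [Matrix.of_apply, sub_mul, ite_mul, zero_mul, Finset.sum_sub_distrib, mul_sub,
        Finset.sum_ite_eq, Finset.mem_univ, if_true, Finset.sum_mul]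
    rw [e1]
    ring
  constructor
  · intro h hdet
    obtain ⟨v, hv, hv2⟩ := Matrix.exists_mulVec_eq_zero_iff.2 hdet
    apply hv
    have h1 := h (ext3 v) (by
      intro p hp
      have h2 := congrFun hv2 ⟨p, hp⟩
      have e1 : v = fun r : D.primeFactors => ext3 v r := by
        funext r
        rw [ext3_of v r.2]
      rw [e1, hmul (ext3 v) ⟨p, hp⟩, Pi.zero_apply, sub_eq_zero] at h2
      rw [ext3_of u hp]
      exact h2)
    funext r
    have h2 := h1 r r.2
    rw [ext3_of v r.2] at h2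
    exact h2
  · intro hdet g hg
    by_contra hcon
    push Not at hcon
    obtain ⟨p, hp, hgp⟩ := hcon
    apply hdet
    rw [← Matrix.exists_mulVec_eq_zero_iff]
    refine ⟨fun r : D.primeFactors => g r, fun h => hgp (congrFun h ⟨p, hp⟩), ?_⟩
    funext q
    rw [hmul g q, hg q q.2, ext3_of u q.2, sub_self]
    rfl

theorem card_ns (D : ℕ) : 2 ^ D.primeFactors.card ≤
    Nat.card {u : D.primeFactors → ZMod 3 // NS D (ext3 u)} := by
  have h : 2 ^ D.primeFactors.card ≤
      Nat.card {a : D.primeFactors → ZMod 3 // (AA D + diagonal a).det ≠ 0} := by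
    rw [← Fintype.card_coe]
    exact Pool.Agent.U687.PT.pd_all D.primeFactors _ (AA D)
  refine h.trans (le_of_eq ?_)
  refine Nat.card_congr ?_
  refine (Equiv.subtypeEquiv (Equiv.neg _) fun a => ?_)
  rw [ns_iff]
  have e1 : (fun p => - (Equiv.neg (D.primeFactors → ZMod 3)) a p) = a := by
    funext p
    simp
  rw [e1]

theorem card_pow3 (S : Finset ℕ) : Nat.card (S → ZMod 3) = 3 ^ S.card := card_fun3 S

theorem c2_ge (D : ℕ) : (2 / 3 : ℝ) ^ D.primeFactors.card ≤ c2 D := by
  unfold c2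
  rw [div_pow]
  exact div_le_div_of_nonneg_right (by exact_mod_cast card_ns D) (by positivity)

theorem c2_le {D : ℕ} (h : D.primeFactors.Nonempty) :
    c2 D ≤ 1 - (1 / 3 : ℝ) ^ D.primeFactors.card := by
  have h0 : ¬ NS D (ext3 (0 : D.primeFactors → ZMod 3)) := by
    intro hN
    obtain ⟨p, hp⟩ := h
    have h1 := hN (fun _ => 1) (fun p hp => by
      rw [ext3_of _ hp]
      simp) p hp
    exact one_ne_zero h1
  have h1 : Nat.card {u : D.primeFactors → ZMod 3 // NS D (ext3 u)} <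
      Nat.card (D.primeFactors → ZMod 3) := by
    rw [Nat.card_eq_fintype_card, Nat.card_eq_fintype_card]
    exact Fintype.card_subtype_lt h0
  rw [card_pow3] at h1
  have h2 : (Nat.card {u : D.primeFactors → ZMod 3 // NS D (ext3 u)} : ℝ) + 1 ≤
      3 ^ D.primeFactors.card := by exact_mod_cast h1
  unfold c2
  rw [one_div, inv_pow, le_sub_iff_add_le, ← one_div, ← add_div, div_le_one (by positivity)]
  exact h2

theorem card_compl3 {α : Type} [Finite α] (P : α → Prop) :
    Nat.card {a : α // P a} + Nat.card {a : α // ¬ P a} = Nat.card α := by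
  rw [← Nat.card_sum]
  exact Nat.card_congr (Equiv.sumCompl _)

theorem c2_compl (D : ℕ) :
    (Nat.card {v : D.primeFactors → ZMod 3 // ¬ NS D (ext3 v)} : ℝ) / 3 ^ D.primeFactors.card =
      1 - c2 D := by
  have h := card_compl3 (fun v : D.primeFactors → ZMod 3 => NS D (ext3 v))
  rw [card_pow3] at h
  have h' : (Nat.card {v : D.primeFactors → ZMod 3 // NS D (ext3 v)} : ℝ) +
      (Nat.card {v : D.primeFactors → ZMod 3 // ¬ NS D (ext3 v)} : ℝ) =
      3 ^ D.primeFactors.card := by exact_mod_cast h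
  unfold c2
  rw [eq_sub_iff_add_eq, ← add_div, add_comm, h', div_self (by positivity)]

/-- counting along a surjective homomorphism -/
theorem ratio_hom3 {A B : Type} [AddCommGroup A] [AddCommGroup B] [Finite A] [Finite B]
    (f : A →+ B) (hf : Function.Surjective f) (P : B → Prop) :
    (Nat.card {a : A // P (f a)} : ℝ) / Nat.card A = (Nat.card {b : B // P b} : ℝ) / Nat.card B := by
  have hsur : ∀ b : Multiplicative B, ∃ a, (AddMonoidHom.toMultiplicative f) a = b := by
    intro b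
    obtain ⟨a, ha⟩ := hf (Multiplicative.toAdd b)
    exact ⟨Multiplicative.ofAdd a, congrArg Multiplicative.ofAdd ha⟩
  have h1 := Pool.Agent.W401.Cheb.card_fib (AddMonoidHom.toMultiplicative f)
    (fun b => P (Multiplicative.toAdd b)) (fun b _ => hsur b)
  have h2 := Pool.Agent.W401.Cheb.card_fib (AddMonoidHom.toMultiplicative f)
    (fun _ => True) (fun b _ => hsur b)
  have h3 : Nat.card {a : Multiplicative A // True} = Nat.card A :=
    Nat.card_congr (Equiv.subtypeUnivEquiv fun _ => trivial)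
  have h4 : Nat.card {b : Multiplicative B // True} = Nat.card B :=
    Nat.card_congr (Equiv.subtypeUnivEquiv fun _ => trivial)
  have h5 : Nat.card {b : Multiplicative B // P (Multiplicative.toAdd b)} =
      Nat.card {b : B // P b} := rfl
  have h6 : Nat.card {a : Multiplicative A // P (Multiplicative.toAdd
      ((AddMonoidHom.toMultiplicative f) a))} = Nat.card {a : A // P (f a)} := rfl
  rw [h6, h5] at h1
  rw [h3, h4] at h2
  rw [h1, h2]
  have hk : 0 < Nat.card (AddMonoidHom.toMultiplicative f).ker := Nat.card_pos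
  have hB : 0 < Nat.card B := Nat.card_pos
  push_cast
  have hk' : (Nat.card (AddMonoidHom.toMultiplicative f).ker : ℝ) ≠ 0 := by positivity
  have hB' : (Nat.card B : ℝ) ≠ 0 := by positivity
  field_simp

/-- the restriction to the prime factors of the members of `𝒟` -/
noncomputable def res (𝒟 : Finset ℕ) (R : Finset ℕ) :
    (R → ZMod 3) →+ ((D : 𝒟) → ((D : ℕ).primeFactors → ZMod 3)) where
  toFun u := fun D i => ext3 u i
  map_zero' := by
    funext D i
    unfold ext3
    by_cases h : (i : ℕ) ∈ R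
    · rw [dif_pos h]; rfl
    · rw [dif_neg h]; rfl
  map_add' u v := by
    funext D i
    exact ext3_add u v i

theorem res_surj {𝒟 : Finset ℕ} (hc : ∀ D ∈ 𝒟, ∀ D' ∈ 𝒟, D ≠ D' → Nat.Coprime D D') {R : Finset ℕ}
    (hR : ∀ D ∈ 𝒟, D.primeFactors ⊆ R) : Function.Surjective (res 𝒟 R) := by
  intro w
  have key : ∀ r : ℕ, ∃ a : ZMod 3, ∀ (D : 𝒟) (h : r ∈ (D : ℕ).primeFactors), a = w D ⟨r, h⟩ := by
    intro r
    by_cases h : ∃ D : 𝒟, r ∈ (D : ℕ).primeFactors
    · obtain ⟨D, h⟩ := h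
      refine ⟨w D ⟨r, h⟩, fun D' h' => ?_⟩
      have hDD : D = D' := by
        by_contra hne
        have h1 := hc D D.2 D' D'.2 (fun h => hne (Subtype.ext h))
        have h4 : r ∣ Nat.gcd (D : ℕ) D' :=
          Nat.dvd_gcd (Nat.dvd_of_mem_primeFactors h) (Nat.dvd_of_mem_primeFactors h')
        rw [h1] at h4
        exact (Nat.prime_of_mem_primeFactors h).one_lt.ne' (Nat.dvd_one.1 h4)
      subst hDD
      rfl
    · exact ⟨0, fun D h' => absurd ⟨D, h'⟩ h⟩
  choose a ha using key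
  refine ⟨fun r => a r, ?_⟩
  funext D i
  show ext3 (fun r : R => a r) (i : ℕ) = w D i
  rw [ext3_of _ (hR D D.2 i.2)]
  exact ha i D i.2

/-- **independence, for arbitrary conditions** -/
theorem ratio_gen3 {𝒟 : Finset ℕ} (hc : ∀ D ∈ 𝒟, ∀ D' ∈ 𝒟, D ≠ D' → Nat.Coprime D D') {R : Finset ℕ}
    (hR : ∀ D ∈ 𝒟, D.primeFactors ⊆ R) (P : (D : ℕ) → (D.primeFactors → ZMod 3) → Prop) :
    (Nat.card {u : R → ZMod 3 // ∀ D ∈ 𝒟, P D (fun i : D.primeFactors => ext3 u i)} : ℝ) /
      3 ^ R.card =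
      ∏ D ∈ 𝒟, ((Nat.card {v : D.primeFactors → ZMod 3 // P D v} : ℝ) / 3 ^ D.primeFactors.card) := by
  have h := ratio_hom3 (res 𝒟 R) (res_surj hc hR) (fun w => ∀ D : 𝒟, P D (w D))
  have e1 : Nat.card {u : R → ZMod 3 // ∀ D ∈ 𝒟, P D (fun i : D.primeFactors => ext3 u i)} =
      Nat.card {u : R → ZMod 3 // ∀ D : 𝒟, P D (res 𝒟 R u D)} :=
    Nat.card_congr (Equiv.subtypeEquivRight fun u =>
      ⟨fun h D => h D D.2, fun h D hD => h ⟨D, hD⟩⟩)
  have e2 : Nat.card {w : (D : 𝒟) → ((D : ℕ).primeFactors → ZMod 3) // ∀ D : 𝒟, P D (w D)} =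
      ∏ D : 𝒟, Nat.card {v : (D : ℕ).primeFactors → ZMod 3 // P D v} := by
    rw [← Nat.card_pi]
    exact Nat.card_congr (Equiv.subtypePiEquivPi
      (p := fun (D : 𝒟) (v : (D : ℕ).primeFactors → ZMod 3) => P D v))
  have e3 : Nat.card ((D : 𝒟) → ((D : ℕ).primeFactors → ZMod 3)) =
      ∏ D : 𝒟, 3 ^ (D : ℕ).primeFactors.card := by
    rw [Nat.card_pi]
    exact Finset.prod_congr rfl fun D _ => card_pow3 _
  rw [e2, e3, card_pow3] at h
  rw [e1]
  push_cast at h
  rw [h, ← Finset.prod_div_distrib]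
  exact Finset.prod_coe_sort 𝒟 (fun D =>
    ((Nat.card {v : D.primeFactors → ZMod 3 // P D v} : ℝ) / 3 ^ D.primeFactors.card))

theorem ns_ext (D : ℕ) {R : Finset ℕ} (u : R → ZMod 3) :
    NS D (ext3 (fun i : D.primeFactors => ext3 u i)) ↔ NS D (ext3 u) := by
  refine NS.congr fun p hp => ?_
  rw [ext3_of _ hp]

/-- the proportion of the vectors with the pattern `V` -/
noncomputable def pconst (𝒟 V R : Finset ℕ) : ℝ :=
  (Nat.card {u : R → ZMod 3 // ∀ D ∈ 𝒟, (NS D (ext3 u) ↔ D ∈ V)} : ℝ) / 3 ^ R.card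

/-- **the pattern law** -/
theorem pconst_prod {𝒟 V : Finset ℕ} (hc : ∀ D ∈ 𝒟, ∀ D' ∈ 𝒟, D ≠ D' → Nat.Coprime D D')
    (hV : V ⊆ 𝒟) {R : Finset ℕ} (hR : ∀ D ∈ 𝒟, D.primeFactors ⊆ R) :
    pconst 𝒟 V R = (∏ D ∈ V, c2 D) * ∏ D ∈ 𝒟 \ V, (1 - c2 D) := by
  have h := ratio_gen3 hc hR (fun D v => (NS D (ext3 v) ↔ D ∈ V))
  have e0 : Nat.card {u : R → ZMod 3 // ∀ D ∈ 𝒟, (NS D (ext3 u) ↔ D ∈ V)} =
      Nat.card {u : R → ZMod 3 // ∀ D ∈ 𝒟,
        (NS D (ext3 (fun i : D.primeFactors => ext3 u i)) ↔ D ∈ V)} :=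
    Nat.card_congr (Equiv.subtypeEquivRight fun u => forall₂_congr fun D hD => by
      rw [ns_ext D])
  unfold pconst
  rw [e0, h, ← Finset.prod_sdiff hV, mul_comm]
  congr 1
  · refine Finset.prod_congr rfl fun D hD => ?_
    unfold c2
    congr 2
    exact Nat.card_congr (Equiv.subtypeEquivRight fun v =>
      ⟨fun h => h.2 hD, fun h => ⟨fun _ => hD, fun _ => h⟩⟩)
  · refine Finset.prod_congr rfl fun D hD => ?_
    rw [← c2_compl]
    congr 2
    have hD' := (Finset.mem_sdiff.1 hD).2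
    exact Nat.card_congr (Equiv.subtypeEquivRight fun v =>
      ⟨fun h h' => hD' (h.1 h'), fun h => ⟨fun h' => absurd h' h, fun h' => absurd h' hD'⟩⟩)

/-- multiplication of the vector by a unit -/
theorem card_scale {R : Finset ℕ} {e : ZMod 3} (he : e ≠ 0) (U : (R → ZMod 3) → Prop) :
    Nat.card {u : R → ZMod 3 // U (fun r => e * u r)} = Nat.card {u : R → ZMod 3 // U u} := by
  have hee : ∀ x : ZMod 3, e * (e * x) = x := by
    revert e
    decide
  refine Nat.card_congr
    { toFun := fun a => ⟨fun r => e * a.1 r, a.2⟩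
      invFun := fun a => ⟨fun r => e * a.1 r, ?_⟩
      left_inv := fun a => ?_
      right_inv := fun a => ?_ }
  · have h1 := a.2
    have e1 : (fun r => e * (e * a.1 r)) = a.1 := funext fun r => hee _
    rw [e1]
    exact h1
  · apply Subtype.ext
    funext r
    exact hee _
  · apply Subtype.ext
    funext r
    exact hee _

end Pool.Agent.U33.B3
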