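import Mathlib
import Pool.Agent.U33.B3.Cnt
import Pool.Agent.Results.MP_4a9ea6_nt.JointPrimeTwists

/-!
# The good numbers `D q ^ e`
-/

set_option autoImplicit false
set_option linter.style.haveILetI false

open scoped Classical

namespace Pool.Agent.U33.B3

open Finset Filter Topology Pool.Agent.Y703.CX
open Pool.Agent.Y703.CT (Cls NoSplit Base)
open Q283.TQ (Bs mu Ker nosplit_iff)
open Pool.Agent.Results.MP_4a9ea6_nt.JointPrimeTwists (Good Trivial3 good_iff kinds)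

/-- the theorem on the cubic residue symbols -/
theorem lamP : LamP := Pool.Agent.Y333.CX.t_LAM

/-- `D` is cube-free, its prime factors are `1` modulo `3`, and `D j ^ e` is not `±1` modulo `9` -/
def Adm3 (e j D : ℕ) : Prop := Split3 D ∧ (D * j ^ e) % 9 ≠ 1 ∧ (D * j ^ e) % 9 ≠ 8

section
variable {D q e j : ℕ}

theorem bs_pow (hD : Split3 D) (hq : q.Prime) (hq2 : q % 3 = 2) (he : e = 1 ∨ e = 2) :
    Bs (D * q ^ e) := by
  have hqD := q_not_dvd hD hq hq2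
  have he0 : e ≠ 0 := by omega
  have hq0 : q ^ e ≠ 0 := pow_ne_zero _ hq.ne_zero
  refine ⟨⟨mul_ne_zero hD.1 hq0, ?_, ?_⟩, q, hq, hq2, (dvd_pow_self q he0).mul_left D, ?_⟩
  · intro h
    rcases (Nat.prime_three.dvd_mul).1 h with h | h
    · have := hD.2.2 3 (Nat.mem_primeFactors.2 ⟨Nat.prime_three, h, hD.1⟩)
      omega
    · have := (Nat.prime_dvd_prime_iff_eq Nat.prime_three hq).1 (Nat.prime_three.dvd_of_dvd_pow h)
      omega
  · intro p hp h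
    have h1 : 3 ≤ (D * q ^ e).factorization p :=
      (hp.pow_dvd_iff_le_factorization (mul_ne_zero hD.1 hq0)).1 h
    rw [Nat.factorization_mul hD.1 hq0, Finsupp.add_apply, hq.factorization_pow] at h1
    by_cases hpq : p = q
    · subst hpq
      rw [Finsupp.single_eq_same, Nat.factorization_eq_zero_of_not_dvd hqD] at h1
      omega
    · rw [Finsupp.single_eq_of_ne hpq, add_zero] at h1
      exact hD.2.1 p hp ((hp.pow_dvd_iff_le_factorization hD.1).2 h1)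
  · intro p hp h hpq
    rcases (hp.dvd_mul).1 h with h | h
    · exact hD.2.2 p (Nat.mem_primeFactors.2 ⟨hp, h, hD.1⟩)
    · exact absurd ((Nat.prime_dvd_prime_iff_eq hp hq).1 (hp.dvd_of_dvd_pow h)) hpq

theorem mod3_of (hj : j = 2 ∨ j = 5 ∨ j = 8) (h : q % 9 = j) : q % 3 = 2 := by
  rcases hj with rfl | rfl | rfl <;> omega

theorem cls_pow (hD : Adm3 e j D) (he : e = 1 ∨ e = 2) (hj : j = 2 ∨ j = 5 ∨ j = 8)
    (hq : q.Prime) (hq9 : q % 9 = j) : Cls (D * q ^ e) := by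
  have h2 := bs_pow hD.1 hq (mod3_of hj hq9) he
  have h3 : (D * q ^ e) % 9 = (D * j ^ e) % 9 := by
    have h4 : q ≡ j [MOD 9] := by
      show q % 9 = j % 9
      rcases hj with rfl | rfl | rfl <;> omega
    exact (h4.pow e).mul_left D
  exact ⟨h2.1, by rw [h3]; exact hD.2.1, by rw [h3]; exact hD.2.2, h2.2⟩

/-- **the criterion** -/
theorem good_pow (hD : Adm3 e j D) (he : e = 1 ∨ e = 2) (hj : j = 2 ∨ j = 5 ∨ j = 8)
    (hq : q.Prime) (hq9 : q % 9 = j) :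
    Good (D * q ^ e) ↔ NS D (fun p => (e : ZMod 3) * lam p q) := by
  have he0 : e ≠ 0 := by omega
  rw [good_iff (cls_pow hD he hj hq hq9), nosplit_iff lamP (bs_pow hD.1 hq (mod3_of hj hq9) he),
    ker_pow hD.1 hq (mod3_of hj hq9) he0]

/-- the criterion depends only on the residue class -/
theorem good_congr (hD : Adm3 e j D) (he : e = 1 ∨ e = 2) (hj : j = 2 ∨ j = 5 ∨ j = 8) {q' : ℕ}
    (hq : q.Prime) (hq9 : q % 9 = j) (hq' : q'.Prime) (hq9' : q' % 9 = j)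
    (h : ∀ p ∈ D.primeFactors, q ≡ q' [MOD p]) : Good (D * q ^ e) ↔ Good (D * q' ^ e) := by
  rw [good_pow hD he hj hq hq9, good_pow hD he hj hq' hq9']
  refine NS.congr fun p hp => ?_
  have hpp := Nat.prime_of_mem_primeFactors hp
  have h1 := hD.1.2.2 p hp
  rw [lam_congr lamP hpp h1 ?_ (h p hp)]
  intro hd
  have h2 := (Nat.prime_dvd_prime_iff_eq hpp hq).1 hd
  have h3 := mod3_of hj hq9
  omega

end

/-- the prime factors of the elements of `𝒟` -/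
def primes (𝒟 : Finset ℕ) : Finset ℕ := 𝒟.biUnion Nat.primeFactors

section
variable {𝒟 V : Finset ℕ} {e j : ℕ}

theorem primes_spec (h𝒟 : ∀ D ∈ 𝒟, Adm3 e j D) : ∀ r ∈ primes 𝒟, r.Prime ∧ r % 3 = 1 := by
  intro r hr
  obtain ⟨D, hD, hr⟩ := Finset.mem_biUnion.1 hr
  exact ⟨Nat.prime_of_mem_primeFactors hr, (h𝒟 D hD).1.2.2 r hr⟩

theorem sub_primes (𝒟 : Finset ℕ) : ∀ D ∈ 𝒟, D.primeFactors ⊆ primes 𝒟 := fun D hD r hr =>
  Finset.mem_biUnion.2 ⟨D, hD, hr⟩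

/-- the pattern of a prime -/
theorem pattern_iff (h𝒟 : ∀ D ∈ 𝒟, Adm3 e j D) (he : e = 1 ∨ e = 2) (hj : j = 2 ∨ j = 5 ∨ j = 8)
    {q : ℕ} (hq : q.Prime) (hq9 : q % 9 = j) :
    (∀ D ∈ 𝒟, (Good (D * q ^ e) ↔ D ∈ V)) ↔
      ∀ D ∈ 𝒟, (NS D (ext3 (fun r : primes 𝒟 => (e : ZMod 3) * lam r q)) ↔ D ∈ V) := by
  refine forall₂_congr fun D hD => ?_
  rw [good_pow (h𝒟 D hD) he hj hq hq9]
  have h1 : NS D (fun p => (e : ZMod 3) * lam p q) ↔
      NS D (ext3 (fun r : primes 𝒟 => (e : ZMod 3) * lam r q)) := by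
    refine NS.congr fun p hp => ?_
    rw [ext3_of _ (sub_primes 𝒟 D hD hp)]
  rw [h1]

theorem e_ne (he : e = 1 ∨ e = 2) : (e : ZMod 3) ≠ 0 := by
  rcases he with rfl | rfl
  · norm_num
  · decide

/-- **the density of a pattern** -/
theorem dens_pattern (h𝒟 : ∀ D ∈ 𝒟, Adm3 e j D) (he : e = 1 ∨ e = 2) (hj : j = 2 ∨ j = 5 ∨ j = 8) :
    Tendsto (fun X : ℕ => (cnt j (fun q => ∀ D ∈ 𝒟, (Good (D * q ^ e) ↔ D ∈ V)) X : ℝ) /
      cnt j (fun _ => True) X) atTop (𝓝 (pconst 𝒟 V (primes 𝒟))) := by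
  have h := dens_class (primes_spec h𝒟) lamP hj (fun u : primes 𝒟 → ZMod 3 =>
    ∀ D ∈ 𝒟, (NS D (ext3 (fun r : primes 𝒟 => (e : ZMod 3) * u r)) ↔ D ∈ V))
  have e1 := card_scale (e_ne he) (fun u : primes 𝒟 → ZMod 3 => ∀ D ∈ 𝒟, (NS D (ext3 u) ↔ D ∈ V))
  rw [e1] at h
  refine h.congr fun X => ?_
  congr 2
  unfold cnt
  congr 1
  ext q
  simp only [Finset.mem_filter]
  refine and_congr_right fun _ => and_congr_right fun hq => and_congr_right fun hq9 => ?_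
  exact (pattern_iff h𝒟 he hj hq hq9).symm

/-- a residue class with the pattern -/
theorem exists_class3 (h𝒟 : ∀ D ∈ 𝒟, Adm3 e j D) (he : e = 1 ∨ e = 2)
    (hj : j = 2 ∨ j = 5 ∨ j = 8) (hc : 0 < pconst 𝒟 V (primes 𝒟)) :
    ∃ M a : ℕ, 1 ≤ M ∧ a.Coprime M ∧ ∀ q : ℕ, q.Prime → q ≡ a [MOD M] →
      q % 9 = j ∧ ∀ D ∈ 𝒟, (Good (D * q ^ e) ↔ D ∈ V) := by
  have hR := primes_spec h𝒟
  -- a vector
  obtain ⟨u, hu⟩ : ∃ u : primes 𝒟 → ZMod 3, ∀ D ∈ 𝒟, (NS D (ext3 u) ↔ D ∈ V) := by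
    by_contra hcon
    push Not at hcon
    have h0 : Nat.card {u : primes 𝒟 → ZMod 3 // ∀ D ∈ 𝒟, (NS D (ext3 u) ↔ D ∈ V)} = 0 := by
      rw [Nat.card_eq_zero]
      left
      refine ⟨fun x => ?_⟩
      obtain ⟨D, hD, h1⟩ := hcon x.1
      rcases h1 with ⟨h1, h2⟩ | ⟨h1, h2⟩
      · exact h2 ((x.2 D hD).1 h1)
      · exact h1 ((x.2 D hD).2 h2)
    unfold pconst at hc
    rw [h0] at hc
    simp at hc
  have hee : ∀ x : ZMod 3, (e : ZMod 3) * ((e : ZMod 3) * x) = x := by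
    rcases he with rfl | rfl
    · intro x; simp
    · decide
  have hj3 : ¬ 3 ∣ j := by rcases hj with rfl | rfl | rfl <;> norm_num
  obtain ⟨k, hk, hk9, hka⟩ := exists_nat hR lamP j hj3 (fun r => (e : ZMod 3) * u r)
  refine ⟨md (primes 𝒟), k, md_pos hR, hk, fun q hq hqk => ?_⟩
  have hq9 : q % 9 = j := by
    have h1 : q % 9 = j % 9 := (hqk.of_dvd nine_dvd_md).trans hk9
    rcases hj with rfl | rfl | rfl <;> omega
  refine ⟨hq9, ?_⟩
  rw [pattern_iff h𝒟 he hj hq hq9]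
  have e1 : (fun r : primes 𝒟 => (e : ZMod 3) * lam r q) = u := by
    funext r
    have h1 : ¬ (r : ℕ) ∣ q := by
      intro hd
      have h2 := (Nat.prime_dvd_prime_iff_eq (hR r r.2).1 hq).1 hd
      have h3 := mod3_of hj hq9
      have h4 := (hR r r.2).2
      omega
    rw [lam_congr lamP (hR r r.2).1 (hR r r.2).2 h1 (hqk.of_dvd (dvd_md r.2)), hka r, hee]
  rw [e1]
  exact hu

end

end Pool.Agent.U33.B3
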