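import Mathlib
import Pool.Agent.U33.B3.Crit
import Pool.Agent.Y353.PS.Page

/-!
# Uniform lower bound for the primes up to a power of the modulus
-/

set_option autoImplicit false
set_option linter.style.haveILetI false

open scoped Classical

namespace Pool.Agent.U33.B3

open Finset Filter Topology Pool.Agent.Y703.CX
open Pool.Agent.Results.MP_4a9ea6_nt.JointPrimeTwists (Good)

theorem totient_md {R : Finset ℕ} (hR : ∀ r ∈ R, r.Prime ∧ r % 3 = 1) (hL : LamP) :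
    (md R).totient = Nat.card (thetaHom hR hL).ker * (6 * 3 ^ R.card) := by
  have : NeZero (md R) := ⟨(md_pos hR).ne'⟩
  have h1 := Pool.Agent.W401.Cheb.card_fib (thetaHom hR hL) (fun _ => True)
    (fun b _ => theta_surj hR hL b)
  have h2 : Nat.card {u : (ZMod (md R))ˣ // True} = (md R).totient := by
    rw [Nat.card_congr (Equiv.subtypeUnivEquiv fun _ => trivial), Nat.card_eq_fintype_card,
      ZMod.card_units_eq_totient]
  have h3 : Nat.card {b : (ZMod 9)ˣ × Multiplicative (R → ZMod 3) // True} = 6 * 3 ^ R.card := by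
    rw [Nat.card_congr (Equiv.subtypeUnivEquiv fun _ => trivial), Nat.card_prod]
    congr 1
    · rw [Nat.card_eq_fintype_card, ZMod.card_units_eq_totient]
      decide
    · exact card_fun3 R
  rw [h2, h3] at h1
  exact h1

theorem least_gen : ∃ (K : ℕ) (c : ℝ), 1 ≤ K ∧ 0 < c ∧ ∀ B : ℕ, ∃ z0 : ℕ, ∀ z : ℕ, z0 ≤ z →
    ∃ q₁ : ℕ, (Real.log z) ^ B < (q₁ : ℝ) ∧ ∀ (R : Finset ℕ), (∀ r ∈ R, r.Prime ∧ r % 3 = 1) →
      (md R) ^ 16 ≤ z → ¬ q₁ ∣ md R → ∀ j : ℕ, (j = 2 ∨ j = 5 ∨ j = 8) →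
      ∀ U : (R → ZMod 3) → Prop,
      c * ((Nat.card {a : R → ZMod 3 // U a} : ℝ) / 3 ^ R.card) ≤
        ∑ q ∈ (Ioc z (z ^ K)).filter (fun q => q.Prime ∧ q % 9 = j ∧ U fun r : R => lam r q),
          (1 : ℝ) / q := by
  obtain ⟨K, c, hK, hc, h⟩ := Pool.Agent.Y353.PS.page
  refine ⟨K, c / 6, hK, by positivity, fun B => ?_⟩
  obtain ⟨z0, h0⟩ := h B
  refine ⟨z0, fun z hz => ?_⟩
  obtain ⟨q1, hq1, h1⟩ := h0 z hz
  refine ⟨q1, hq1, fun R hR h16 hnd j hj U => ?_⟩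
  have hL : LamP := lamP
  have : NeZero (md R) := ⟨(md_pos hR).ne'⟩
  have hj9 : Nat.Coprime j 9 := by rcases hj with rfl | rfl | rfl <;> norm_num
  set jj : (ZMod 9)ˣ := ZMod.unitOfCoprime j hj9 with hjj
  set F : Finset (ZMod (md R))ˣ := Finset.univ.filter fun u => (thetaHom hR hL u).1 = jj ∧
      U (Multiplicative.toAdd (thetaHom hR hL u).2) with hF
  have hcardF : F.card = Nat.card (thetaHom hR hL).ker * Nat.card {a : R → ZMod 3 // U a} := by
    have h1 := card_theta hR hL jj U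
    rw [Nat.card_eq_fintype_card (α := {u : (ZMod (md R))ˣ // _}), Fintype.card_subtype] at h1
    exact h1
  have hker : (0 : ℝ) < Nat.card (thetaHom hR hL).ker := by exact_mod_cast Nat.card_pos
  have htot := totient_md hR hL
  -- the sum over the classes
  have hsum : ∑ u ∈ F, c / ((md R).totient : ℝ) ≤
      ∑ u ∈ F, ∑ p ∈ (Ioc z (z ^ K)).filter
        (fun p => p.Prime ∧ p ≡ ((u : (ZMod (md R))ˣ) : ZMod (md R)).val [MOD md R]), (1 : ℝ) / p :=
    Finset.sum_le_sum fun u _ => h1 (md R) _ (md_pos hR) h16 hnd (ZMod.val_coe_unit_coprime u)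
  have hdisj : (F : Set (ZMod (md R))ˣ).PairwiseDisjoint fun u => (Ioc z (z ^ K)).filter
        (fun p => p.Prime ∧ p ≡ ((u : (ZMod (md R))ˣ) : ZMod (md R)).val [MOD md R]) := by
    intro u _ v _ huv
    show Disjoint _ _
    rw [Finset.disjoint_left]
    intro p hp hp'
    simp only [Finset.mem_filter] at hp hp'
    have h2 := hp.2.2.symm.trans hp'.2.2
    apply huv
    apply Units.ext
    have h3 := (ZMod.natCast_eq_natCast_iff _ _ _).2 h2
    rwa [ZMod.natCast_zmod_val, ZMod.natCast_zmod_val] at h3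
  rw [← Finset.sum_biUnion hdisj, Finset.sum_const, nsmul_eq_mul, hcardF, htot] at hsum
  have e1 : (c / 6) * ((Nat.card {a : R → ZMod 3 // U a} : ℝ) / 3 ^ R.card) =
      ((Nat.card (thetaHom hR hL).ker * Nat.card {a : R → ZMod 3 // U a} : ℕ) : ℝ) *
        (c / ((Nat.card (thetaHom hR hL).ker * (6 * 3 ^ R.card) : ℕ) : ℝ)) := by
    push_cast
    field_simp
  rw [e1]
  refine hsum.trans ?_
  refine Finset.sum_le_sum_of_subset_of_nonneg ?_ (fun _ _ _ => by positivity)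
  intro q hq
  simp only [Finset.mem_biUnion, Finset.mem_filter, hF, Finset.mem_univ, true_and] at hq ⊢
  obtain ⟨u, ⟨hu1, hu2⟩, hI, hqp, hqu⟩ := hq
  have h9 : q ≡ j [MOD 9] := by
    have h2 : ((ZMod.unitsMap (nine_dvd_md (R := R)) u : (ZMod 9)ˣ) : ZMod 9) = (j : ZMod 9) := by
      have h3 : ZMod.unitsMap (nine_dvd_md (R := R)) u = jj := hu1
      rw [h3, hjj, ZMod.coe_unitOfCoprime]
    have h4 : ((q : ℕ) : ZMod (md R)) = (u : ZMod (md R)) := by
      rw [← ZMod.natCast_zmod_val (u : ZMod (md R))]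
      exact (ZMod.natCast_eq_natCast_iff _ _ _).2 hqu
    rw [ZMod.unitsMap_val, ← h4, ZMod.cast_natCast nine_dvd_md] at h2
    exact (ZMod.natCast_eq_natCast_iff _ _ _).1 h2
  have hq9 : q % 9 = j := by
    have h2 : q % 9 = j % 9 := h9
    rcases hj with rfl | rfl | rfl <;> omega
  refine ⟨hI, hqp, hq9, ?_⟩
  have e2 : (fun r : R => lam r q) = Multiplicative.toAdd (thetaHom hR hL u).2 := by
    funext r
    show lam r q = lam r (u : ZMod (md R)).val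
    have hud := not_dvd_of_coprime hR (ZMod.val_coe_unit_coprime u) r.2
    exact (lam_congr hL (hR r r.2).1 (hR r r.2).2 hud (hqu.symm.of_dvd (dvd_md r.2))).symm
  rw [e2]
  exact hu2

/-- the primes with a given pattern up to a power of the modulus -/
theorem least_pattern : ∃ (K : ℕ) (c : ℝ), 1 ≤ K ∧ 0 < c ∧ ∀ B : ℕ, ∃ z0 : ℕ, ∀ z : ℕ, z0 ≤ z →
    ∃ q₁ : ℕ, (Real.log z) ^ B < (q₁ : ℝ) ∧ ∀ (e j : ℕ) (𝒟 V : Finset ℕ), (e = 1 ∨ e = 2) →
      (j = 2 ∨ j = 5 ∨ j = 8) → (∀ D ∈ 𝒟, Adm3 e j D) → (md (primes 𝒟)) ^ 16 ≤ z →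
      ¬ q₁ ∣ md (primes 𝒟) →
      c * pconst 𝒟 V (primes 𝒟) ≤
        ∑ q ∈ (Ioc z (z ^ K)).filter (fun q => q.Prime ∧ q % 9 = j ∧
          ∀ D ∈ 𝒟, (Good (D * q ^ e) ↔ D ∈ V)), (1 : ℝ) / q := by
  obtain ⟨K, c, hK, hc, h⟩ := least_gen
  refine ⟨K, c, hK, hc, fun B => ?_⟩
  obtain ⟨z0, h0⟩ := h B
  refine ⟨z0, fun z hz => ?_⟩
  obtain ⟨q1, hq1, h1⟩ := h0 z hz
  refine ⟨q1, hq1, fun e j 𝒟 V he hj h𝒟 h16 hnd => ?_⟩
  have h2 := h1 (primes 𝒟) (primes_spec h𝒟) h16 hnd j hj (fun u : primes 𝒟 → ZMod 3 =>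
    ∀ D ∈ 𝒟, (NS D (ext3 (fun r : primes 𝒟 => (e : ZMod 3) * u r)) ↔ D ∈ V))
  rw [card_scale (e_ne he) (fun u : primes 𝒟 → ZMod 3 => ∀ D ∈ 𝒟, (NS D (ext3 u) ↔ D ∈ V))] at h2
  refine h2.trans (le_of_eq ?_)
  refine Finset.sum_congr ?_ fun _ _ => rfl
  ext q
  simp only [Finset.mem_filter]
  refine and_congr_right fun _ => and_congr_right fun hq => and_congr_right fun hq9 => ?_
  exact (pattern_iff h𝒟 he hj hq hq9).symm

end Pool.Agent.U33.B3
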