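import Mathlib
import Pool.Agent.U33.BC.Seq

/-!
# Strings of consecutive primes in one residue class, of bounded diameter
-/

set_option autoImplicit false

namespace Pool.Agent.U33.B3

open Pool.Agent.U33.BC

/-- strings of `m` consecutive primes in the class `a` modulo `M`, of bounded diameter -/
theorem strings_class {M a : ℕ} (hM : 1 ≤ M) (hcop : a.Coprime M) (m : ℕ) :
    ∃ H : ℕ, ∀ N : ℕ, ∃ p : Fin m → ℕ, StrictMono p ∧
      (∀ i, N ≤ p i ∧ (p i).Prime ∧ p i ≡ a [MOD M]) ∧ (∀ i j, p j ≤ p i + H) ∧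
      (∀ q : ℕ, q.Prime → ∀ i j, p i ≤ q → q ≤ p j → ∃ k, q = p k) := by
  obtain ⟨B, -, hB, h⟩ := hered_classes Set.univ Set.infinite_univ
  obtain ⟨F, hF, h1⟩ := h M a hM hcop
  obtain ⟨S, hS, hcard⟩ := (hB.sdiff hF).exists_subset_card_eq m
  set R : ℕ := S.sup Int.natAbs with hR
  have hle : ∀ s ∈ S, |s| ≤ (R : ℤ) := by
    intro s hs
    have h2 : s.natAbs ≤ R := Finset.le_sup (f := Int.natAbs) hs
    rw [← Int.natCast_natAbs]
    exact_mod_cast h2
  set s := S.orderEmbOfFin hcard with hs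
  have hsS : ∀ i, s i ∈ S := fun i => Finset.orderEmbOfFin_mem S hcard i
  refine ⟨2 * R, fun N => ?_⟩
  obtain ⟨n, ⟨hn1, hn2⟩, hn4⟩ := (h1 (S : Set ℤ) hS R).exists_gt (N + 2 * R)
  have habs : ∀ i, -(R : ℤ) ≤ s i ∧ s i ≤ R := fun i => abs_le.1 (hle _ (hsS i))
  have hcast : ∀ i, (((((n : ℤ) + s i).toNat) : ℕ) : ℤ) = (n : ℤ) + s i := by
    intro i
    apply Int.toNat_of_nonneg
    have := (habs i).1
    omega
  refine ⟨fun i => ((n : ℤ) + s i).toNat, ?_, ?_, ?_, ?_⟩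
  · intro i j hij
    have h2 : s i < s j := s.strictMono hij
    have e1 := hcast i
    have e2 := hcast j
    simp only
    omega
  · intro i
    have e1 := hcast i
    have := (habs i).1
    refine ⟨?_, (hn1 _ (hle _ (hsS i))).2 (hsS i), ?_⟩
    · simp only
      omega
    · have h2 := hn2 _ (hsS i)
      rw [← e1] at h2
      exact (Int.natCast_modEq_iff).1 h2
  · intro i j
    have e1 := hcast i
    have e2 := hcast j
    have h2 := (habs i).1
    have h3 := (habs j).2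
    simp only
    omega
  · intro q hq i j hi hj
    have e1 := hcast i
    have e2 := hcast j
    have h2 := (habs i).1
    have h3 := (habs j).2
    simp only at hi hj
    have h4 : |(q : ℤ) - n| ≤ R := by
      rw [abs_le]
      constructor <;> omega
    have h5 : (n : ℤ) + ((q : ℤ) - n) = q := by ring
    have h6 := hn1 ((q : ℤ) - n) h4
    rw [h5, Int.toNat_natCast] at h6
    have h7 : (q : ℤ) - n ∈ S := by exact_mod_cast h6.1 hq
    have h8 : (q : ℤ) - n ∈ Set.range s := by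
      rw [hs, Finset.range_orderEmbOfFin]
      exact_mod_cast h7
    obtain ⟨k, hk⟩ := h8
    refine ⟨k, ?_⟩
    simp only
    rw [hk, h5, Int.toNat_natCast]

/-- the hereditary form for several classes at once, with primes as natural numbers -/
theorem hered_nat (A : Set ℤ) (hA : A.Infinite) :
    ∃ B ⊆ A, B.Infinite ∧ ∀ (M a : ℕ), 1 ≤ M → Nat.Coprime a M → ∃ F : Set ℤ, F.Finite ∧
      ∀ S ⊆ B \ F, ∀ R : ℕ, {n : ℕ |
        (∀ y : ℤ, |y| ≤ R → (Nat.Prime ((n : ℤ) + y).toNat ↔ y ∈ S)) ∧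
        ∀ y ∈ S, |y| ≤ R → ((n : ℤ) + y).toNat.Prime ∧ ((n : ℤ) + y).toNat ≡ a [MOD M]}.Infinite := by
  obtain ⟨B, hBA, hB, h⟩ := hered_classes A hA
  refine ⟨B, hBA, hB, fun M a hM hcop => ?_⟩
  obtain ⟨F, hF, h1⟩ := h M a hM hcop
  refine ⟨F, hF, fun S hS R => (h1 S hS R).mono ?_⟩
  rintro n ⟨hn1, hn2⟩
  refine ⟨hn1, fun y hy hR => ?_⟩
  have hp := (hn1 y hR).2 hy
  refine ⟨hp, ?_⟩
  have hcast : ((((n : ℤ) + y).toNat : ℕ) : ℤ) = (n : ℤ) + y := by
    apply Int.toNat_of_nonneg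
    by_contra hneg
    rw [Int.toNat_of_nonpos (by omega)] at hp
    exact Nat.not_prime_zero hp
  have h2 := hn2 y hy
  rw [← hcast] at h2
  exact (Int.natCast_modEq_iff).1 h2

end Pool.Agent.U33.B3
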